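import Pool.Agent.helper42.T.PeTree

set_option autoImplicit false

/-!
# The property `PE` for groups covered by malnormal subgroups

`S` is a set of natural numbers which contains `1` and is closed under products. An element `q` is
`S`-torsion if `q ^ n = 1` for some `n` in `S`. If the subgroups consisting of `S`-torsion elements
satisfy `PE`, and every other element lies in a subgroup `A i` that satisfies `PE` and meets its other
conjugates in `S`-torsion elements only, then the group satisfies `PE`.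
-/

namespace Pool.Agent.helper16.T

open Pool.Agent.helper41.EN (v R4 K)
open Pool.Agent.helper42.V (EA nc_eq_cl)
open Pool.Agent.helper16.V (Cyc left5 Pc mem_Pc Pc_inv zconj_mem)
open Pool.Agent.helper42.W
open Pool.Agent.helper42.T (al coe_al coe_iter r4_conj comm_mem Dd Dd_normal Dd_le sup_le_of pe_tree_aux
  ea_of_conj conj_mem_nc)

variable {Q : Type} [Group Q]

/-- malnormal up to `S`-torsion -/
def Mal (S : Set ℕ) (A : Subgroup Q) : Prop :=
  ∀ g x : Q, (∀ n ∈ S, x ^ n ≠ 1) → x ∈ A → g * x * g⁻¹ ∈ A → g ∈ A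

variable {G : Type} [Group G] (M : Subgroup G) [hM : M.Normal] (f : M →* Q)

/-- (S0) -/
theorem S0m {S : Set ℕ} {A : Subgroup Q} (hA : Mal S A) {a : G} (hR : R4 a) {x : M}
    (hx : ∀ n ∈ S, (f x) ^ n ≠ 1) (hxS : f x ∈ A) : f (al M a x) ∈ A := by
  -- the commutators lie in `M`
  have hv : ∀ k, v a (x : G) (k + 1) ∈ M := by
    intro k
    show (v a (x : G) k)⁻¹ * (x * v a (x : G) k * (x : G)⁻¹) ∈ M
    have e : (v a (x : G) k)⁻¹ * (x * v a (x : G) k * (x : G)⁻¹) =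
        ((v a (x : G) k)⁻¹ * x * (v a (x : G) k)⁻¹⁻¹) * (x : G)⁻¹ := by group
    rw [e]
    exact M.mul_mem (hM.conj_mem _ x.2 _) (M.inv_mem x.2)
  have key : ∀ i, i ≤ 3 → f ⟨v a (x : G) (3 - i + 1), hv (3 - i)⟩ ∈ A := by
    intro i
    induction i with
    | zero =>
      intro _
      have e : (⟨v a (x : G) (3 - 0 + 1), hv (3 - 0)⟩ : M) = 1 := Subtype.ext (hR (x : G))
      rw [e, map_one]
      exact A.one_mem
    | succ i ih =>
      intro hi
      have h1 := ih (by omega)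
      obtain ⟨j, hj⟩ : ∃ j, 3 - (i + 1) = j := ⟨_, rfl⟩
      have hj2 : 3 - i = j + 1 := by omega
      simp only [hj, hj2] at h1 ⊢
      have e : (⟨v a (x : G) (j + 1 + 1), hv (j + 1)⟩ : M) =
          (⟨v a (x : G) (j + 1), hv j⟩ : M)⁻¹ * x * (⟨v a (x : G) (j + 1), hv j⟩ : M) * x⁻¹ := by
        apply Subtype.ext
        show (v a (x : G) (j + 1))⁻¹ * (x * v a (x : G) (j + 1) * (x : G)⁻¹) =
          (v a (x : G) (j + 1))⁻¹ * x * (v a (x : G) (j + 1)) * (x : G)⁻¹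
        group
      rw [e, map_mul, map_mul, map_mul, map_inv, map_inv] at h1
      have h2 := A.mul_mem h1 hxS
      rw [inv_mul_cancel_right] at h2
      have h3 : (f ⟨v a (x : G) (j + 1), hv j⟩)⁻¹ ∈ A := by
        refine hA _ (f x) hx hxS ?_
        rw [inv_inv]
        exact h2
      have h4 := A.inv_mem h3
      rwa [inv_inv] at h4
  have h1 := key 3 le_rfl
  have e : al M a x = (⟨v a (x : G) (3 - 3 + 1), hv (3 - 3)⟩ : M) * x := by
    apply Subtype.ext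
    show a⁻¹ * x * a = (a⁻¹ * (x * a * (x : G)⁻¹)) * x
    group
  rw [e, map_mul]
  exact A.mul_mem h1 hxS

/-- an element lies in the subgroup generated by its first five conjugates -/
theorem mem_of_five {a : G} (hR : R4 a) (x : M) (N : Subgroup G)
    (h : ∀ i, 1 ≤ i → i ≤ 5 → (((al M a)^[i] x : M) : G) ∈ N) : (x : G) ∈ N := by
  set x' : M := (al M a)^[5] x with hx'
  have h1 : Pc (x' : G) a 0 5 ≤ N := by
    rw [Pc, Subgroup.closure_le]
    rintro _ ⟨j, _, hj, rfl⟩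
    have h2 := h (5 - j) (by omega) (by omega)
    rw [coe_iter] at h2
    have e : a ^ j * (x' : G) * (a ^ j)⁻¹ = (a ^ (5 - j))⁻¹ * x * a ^ (5 - j) := by
      rw [hx', coe_iter]
      have e2 : a ^ 5 = a ^ (5 - j) * a ^ j := by rw [← pow_add]; congr 1; omega
      rw [e2]
      group
    show a ^ j * (x' : G) * (a ^ j)⁻¹ ∈ N
    rw [e]
    exact h2
  have h2 : (x' : G) ∈ Pc (x' : G) a 0 5 := by
    have h3 := mem_Pc (x' : G) a (Nat.zero_le 0) (by norm_num : 0 < 5)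
    simpa using h3
  have h3 := zconj_mem (X := Pc (x' : G) a 0 5) (fun z hz => Pc_inv (left5 hR (x' : G)) hz) 5 _ h2
  have h4 := h1 h3
  have e : a ^ (5 : ℤ) * (x' : G) * (a ^ (5 : ℤ))⁻¹ = (x : G) := by
    rw [hx', coe_iter]
    group
  rwa [e] at h4

/-- (S2) -/
theorem S2m {S : Set ℕ} (h1S : 1 ∈ S) (hmS : ∀ m ∈ S, ∀ n ∈ S, m * n ∈ S) {A : Subgroup Q}
    {a : G} (hR : R4 a) {x : M} (hx : ∀ n ∈ S, (f x) ^ n ≠ 1) (hxA : f x ∈ A) :
    ∃ y : M, (∀ n ∈ S, (f y) ^ n ≠ 1) ∧ f y ∈ A ∧ ∀ n ∈ S, (f (al M a y)) ^ n ≠ 1 := by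
  by_contra hcon
  push Not at hcon
  have key : ∀ j, ∃ n ∈ S, ∀ i, 1 ≤ i → i ≤ j → f ((al M a)^[i] (x ^ n)) = 1 := by
    intro j
    induction j with
    | zero => exact ⟨1, h1S, fun i h1 h2 => by omega⟩
    | succ j ih =>
      obtain ⟨n, hn, h⟩ := ih
      have hxn : ∀ m ∈ S, (f (x ^ n)) ^ m ≠ 1 := by
        intro m hm
        rw [map_pow, ← pow_mul]
        exact hx _ (hmS n hn m hm)
      have hxnA : f (x ^ n) ∈ A := by
        rw [map_pow]
        exact A.pow_mem hxA n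
      obtain ⟨u, hu1, hu2⟩ : ∃ u : M, f u = f (x ^ n) ∧ f (al M a u) = f ((al M a)^[j + 1] (x ^ n)) := by
        rcases Nat.eq_zero_or_pos j with hj | hj
        · subst hj
          exact ⟨x ^ n, rfl, by rw [zero_add, Function.iterate_one]⟩
        · refine ⟨x ^ n * (al M a)^[j] (x ^ n), ?_, ?_⟩
          · rw [map_mul, h j hj le_rfl, mul_one]
          · have h1 := h 1 le_rfl hj
            rw [Function.iterate_one] at h1
            rw [map_mul, map_mul, h1, one_mul, ← Function.iterate_succ_apply' (al M a) j]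
      obtain ⟨m, hm, hm2⟩ := hcon u (by rw [hu1]; exact hxn) (by rw [hu1]; exact hxnA)
      refine ⟨n * m, hmS n hn m hm, fun i hi1 hi2 => ?_⟩
      rw [pow_mul, iterate_map_pow, map_pow]
      rcases Nat.lt_or_ge i (j + 1) with hi | hi
      · rw [h i hi1 (by omega), one_pow]
      · have : i = j + 1 := by omega
        rw [this, ← hu2]
        exact hm2
  obtain ⟨n, hn, h⟩ := key 5
  have h1 : ((x ^ n : M) : G) ∈ f.ker.map M.subtype :=
    mem_of_five M hR (x ^ n) _ fun i hi1 hi2 => ⟨_, h i hi1 hi2, rfl⟩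
  obtain ⟨y, hy, e⟩ := h1
  have e2 : y = x ^ n := Subtype.ext e
  rw [e2] at hy
  have h2 : f (x ^ n) = 1 := hy
  rw [map_pow] at h2
  exact hx n hn h2

/-- (S3) -/
theorem S3m {S : Set ℕ} (h1S : 1 ∈ S) (hmS : ∀ m ∈ S, ∀ n ∈ S, m * n ∈ S) {A : Subgroup Q} (hA : Mal S A)
    {a : G} (hR : R4 a) {z : M} (hz : ∀ n ∈ S, (f z) ^ n ≠ 1) (hzA : f z ∈ A) {m : G} (hm : m ∈ M) :
    f ⟨a⁻¹ * (m⁻¹ * a * m), comm_mem M hm⟩ ∈ A := by
  obtain ⟨y, hy, hyA, hy2⟩ := S2m M f h1S hmS hR hz hzA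
  have h0 := S0m M f hA hR hy hyA
  have h1 := S0m M f hA (r4_conj hR m) hy hyA
  have e : al M (m⁻¹ * a * m) y = (⟨a⁻¹ * (m⁻¹ * a * m), comm_mem M hm⟩ : M)⁻¹ * al M a y *
      ⟨a⁻¹ * (m⁻¹ * a * m), comm_mem M hm⟩ := by
    apply Subtype.ext
    show (m⁻¹ * a * m)⁻¹ * y * (m⁻¹ * a * m) =
      (a⁻¹ * (m⁻¹ * a * m))⁻¹ * (a⁻¹ * y * a) * (a⁻¹ * (m⁻¹ * a * m))
    group
  rw [e, map_mul, map_mul, map_inv] at h1
  have h3 : (f ⟨a⁻¹ * (m⁻¹ * a * m), comm_mem M hm⟩)⁻¹ ∈ A := by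
    refine hA _ _ hy2 h0 ?_
    rw [inv_inv]
    exact h1
  have h4 := A.inv_mem h3
  rwa [inv_inv] at h4

/-- **`PE` is closed under covers by subgroups that are malnormal up to `S`-torsion.** -/
theorem pe_mal {Q : Type} [Group Q] (S : Set ℕ) (h1S : 1 ∈ S) (hmS : ∀ m ∈ S, ∀ n ∈ S, m * n ∈ S)
    (hT : ∀ R : Subgroup Q, (∀ q ∈ R, ∃ n ∈ S, q ^ n = 1) → PE R)
    (ι : Type) (A : ι → Subgroup Q) (hPE : ∀ i, PE (A i))
    (hcov : ∀ q : Q, (∀ n ∈ S, q ^ n ≠ 1) → ∃ i, q ∈ A i)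
    (hmal : ∀ i, ∀ g x : Q, (∀ n ∈ S, x ^ n ≠ 1) → x ∈ A i → g * x * g⁻¹ ∈ A i → g ∈ A i) : PE Q := by
  intro G _ M hM f a hR hc hcore
  by_cases hcase : ∃ z : M, ∀ n ∈ S, (f z) ^ n ≠ 1
  · obtain ⟨z, hz⟩ := hcase
    obtain ⟨i, hi⟩ := hcov _ hz
    have hDn := Dd_normal M a
    have hDM := Dd_le M a
    have hDS : ∀ (d : G) (hd : d ∈ Dd M a), f ⟨d, hDM hd⟩ ∈ A i := by
      have h1 : Dd M a ≤ ((A i).comap f).map M.subtype := by
        conv_lhs => unfold Dd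
        rw [Subgroup.closure_le]
        rintro _ ⟨g, m, hm, rfl⟩
        exact ⟨⟨_, comm_mem M hm⟩, S3m M f h1S hmS (hmal i) (r4_conj hR g) hz hi hm, rfl⟩
      intro d hd
      obtain ⟨y, hy, e⟩ := h1 hd
      have e2 : y = ⟨d, hDM hd⟩ := Subtype.ext e
      rw [← e2]
      exact hy
    have hMD : ∀ m ∈ M, a⁻¹ * (m⁻¹ * a * m) ∈ Dd M a := by
      intro m hm
      exact Subgroup.subset_closure ⟨1, m, hm, by group⟩
    refine ea_of_conj a fun g => ?_
    have hb : a⁻¹ * (g * a * g⁻¹) ∈ Dd M a := by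
      obtain ⟨m, hm, k, rfl⟩ := hc g
      have h1 := hMD m⁻¹ (M.inv_mem hm)
      rwa [show a⁻¹ * (m⁻¹⁻¹ * a * m⁻¹) = a⁻¹ * (m * a ^ k * a * (m * a ^ k)⁻¹) by group] at h1
    have hRb : R4 (g * a * g⁻¹) := by
      have h1 := r4_conj hR g⁻¹
      rwa [inv_inv] at h1
    exact pe_tree_aux (hPE i) f hc hcore hRb _ (Dd M a) hDM hDS
      (Subgroup.subset_normalClosure (Set.mem_singleton a)) (conj_mem_nc a g) (sup_le_of hc hMD hb)
  · push Not at hcase
    have h1 : PE f.range := hT f.range (by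
      rintro _ ⟨x, rfl⟩
      exact hcase x)
    refine h1 G M f.rangeRestrict a hR hc ?_
    intro m hm h
    exact hcore m hm fun g => congrArg Subtype.val (h g)

end Pool.Agent.helper16.T
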